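import Pool.Agent.Helper87.T.Four

/-!
The mean square over the lengths of the sums with arbitrary weights.
-/

set_option autoImplicit false

open Finset

namespace Pool.Agent.Helper87.T

open Pool.Agent.TH893.CL (Pk SS F Pk_eq F_succ F_mul_self sq_one Pk_abs F_abs abs_sum_Ioc_le)

/-- Bessel's inequality with the sums of the absolute values of the rows -/
theorem bessel_real (a p : ℕ → ℝ) (I K : Finset ℕ) (R : ℝ) (hR0 : 0 ≤ R)
    (hR : ∀ k ∈ K, ∑ m ∈ K, |∑ n ∈ I, p (n + k) * p (n + m)| ≤ R) :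
    ∑ k ∈ K, (∑ n ∈ I, a n * p (n + k)) ^ 2 ≤ (∑ n ∈ I, a n ^ 2) * R := by
  set c : ℕ → ℝ := fun k => ∑ n ∈ I, a n * p (n + k) with hc
  set W : ℕ → ℝ := fun n => ∑ k ∈ K, c k * p (n + k) with hW
  set S : ℝ := ∑ k ∈ K, c k ^ 2 with hS
  have hS0 : 0 ≤ S := sum_nonneg fun k _ => sq_nonneg _
  have h1 : S = ∑ n ∈ I, a n * W n := by
    have : ∀ k ∈ K, c k ^ 2 = ∑ n ∈ I, a n * (c k * p (n + k)) := by
      intro k _
      rw [pow_two]
      conv_lhs => rw [hc]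
      rw [← hc]
      rw [sum_mul]
      refine sum_congr rfl fun n _ => ?_
      ring
    rw [hS, sum_congr rfl this, sum_comm]
    refine sum_congr rfl fun n _ => ?_
    rw [hW, mul_sum]
  have h2 : S ^ 2 ≤ (∑ n ∈ I, a n ^ 2) * ∑ n ∈ I, W n ^ 2 := by
    rw [h1]
    exact sum_mul_sq_le_sq_mul_sq I a W
  have h3 : ∑ n ∈ I, W n ^ 2 ≤ S * R := by
    have e1 : ∑ n ∈ I, W n ^ 2 = ∑ k ∈ K, ∑ m ∈ K, c k * c m * ∑ n ∈ I, p (n + k) * p (n + m) := by
      have : ∀ n ∈ I, W n ^ 2 = ∑ k ∈ K, ∑ m ∈ K, c k * c m * (p (n + k) * p (n + m)) := by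
        intro n _
        rw [pow_two, hW, sum_mul_sum]
        refine sum_congr rfl fun k _ => sum_congr rfl fun m _ => ?_
        ring
      rw [sum_congr rfl this, sum_comm]
      refine sum_congr rfl fun k _ => ?_
      rw [sum_comm]
      refine sum_congr rfl fun m _ => ?_
      exact (mul_sum _ _ _).symm
    have e2 : ∑ k ∈ K, ∑ m ∈ K, c k * c m * ∑ n ∈ I, p (n + k) * p (n + m) ≤
        ∑ k ∈ K, ∑ m ∈ K, (c k ^ 2 / 2 * |∑ n ∈ I, p (n + k) * p (n + m)| +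
          c m ^ 2 / 2 * |∑ n ∈ I, p (n + k) * p (n + m)|) := by
      refine sum_le_sum fun k _ => sum_le_sum fun m _ => ?_
      refine (le_abs_self _).trans ?_
      rw [abs_mul, ← add_mul]
      refine mul_le_mul_of_nonneg_right ?_ (abs_nonneg _)
      rw [abs_mul]
      have := sq_abs (c k)
      have := sq_abs (c m)
      nlinarith [sq_nonneg (|c k| - |c m|)]
    have e3 : ∑ k ∈ K, ∑ m ∈ K, c k ^ 2 / 2 * |∑ n ∈ I, p (n + k) * p (n + m)| ≤ S / 2 * R := by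
      rw [hS, sum_div, sum_mul]
      refine sum_le_sum fun k hk => ?_
      rw [← mul_sum]
      exact mul_le_mul_of_nonneg_left (hR k hk) (by positivity)
    have e4 : ∑ k ∈ K, ∑ m ∈ K, c m ^ 2 / 2 * |∑ n ∈ I, p (n + k) * p (n + m)| ≤ S / 2 * R := by
      rw [sum_comm]
      refine le_trans (le_of_eq ?_) e3
      refine sum_congr rfl fun k _ => sum_congr rfl fun m _ => ?_
      congr 2
      refine sum_congr rfl fun n _ => mul_comm _ _
    rw [e1]
    refine e2.trans ?_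
    simp only [sum_add_distrib]
    linarith
  rcases eq_or_lt_of_le hS0 with h | h
  · rw [← h]
    exact mul_nonneg (sum_nonneg fun n _ => sq_nonneg _) hR0
  · have h4 : S * S ≤ S * ((∑ n ∈ I, a n ^ 2) * R) := by
      calc S * S = S ^ 2 := by ring
        _ ≤ (∑ n ∈ I, a n ^ 2) * ∑ n ∈ I, W n ^ 2 := h2
        _ ≤ (∑ n ∈ I, a n ^ 2) * (S * R) :=
            mul_le_mul_of_nonneg_left h3 (sum_nonneg fun n _ => sq_nonneg _)
        _ = _ := by ring
    exact le_of_mul_le_mul_left h4 h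

lemma shift_many (f : ℕ → ℝ) (hf : ∀ n, |f n| ≤ 1) (Y X k : ℕ) (h : Y ≤ X) :
    |∑ n ∈ Ioc Y X, f (n + k) - ∑ n ∈ Ioc Y X, f n| ≤ 2 * k := by
  induction k with
  | zero => simp
  | succ k ih =>
    have h1 := shift_one (fun n => f (n + k)) (fun n => hf _) Y X h
    have e1 : ∀ n, f (n + 1 + k) = f (n + (k + 1)) := fun n => by congr 1; ring
    simp only [e1] at h1
    have h2 := abs_add_le (∑ n ∈ Ioc Y X, f (n + (k + 1)) - ∑ n ∈ Ioc Y X, f (n + k))
      (∑ n ∈ Ioc Y X, f (n + k) - ∑ n ∈ Ioc Y X, f n)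
    rw [sub_add_sub_cancel] at h2
    push_cast
    linarith

variable {l : ℕ → ℝ}

/-- the entries of the Gram matrix -/
lemma gram_le (hl : ∀ n, l n = 1 ∨ l n = -1) (Y X k j : ℕ) (h : Y ≤ X) :
    |∑ n ∈ Ioc Y X, F l (n + k) * F l (n + (k + j))| ≤ |SS l j Y X| + 2 * k := by
  have h1 := shift_many (Pk l j) (fun n => (Pk_abs hl j n).le) Y X k h
  have e1 : ∀ n, Pk l j (n + k) = F l (n + k) * F l (n + (k + j)) := by
    intro n
    rw [Pk_eq hl, add_assoc]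
  simp only [e1] at h1
  have h2 := abs_sub_abs_le_abs_sub (∑ n ∈ Ioc Y X, F l (n + k) * F l (n + (k + j))) (∑ n ∈ Ioc Y X, Pk l j n)
  unfold SS
  linarith

lemma row_le (hl : ∀ n, l n = 1 ∨ l n = -1) (Y X K : ℕ) (h : Y ≤ X) (μ C : ℝ)
    (hm : ∀ m, m ≤ K → ∑ j ∈ Icc 1 m, |SS l j Y X| ≤ m * μ + C) (k : ℕ) (hk : k ∈ Icc 1 K) (hμ : 0 ≤ μ) :
    ∑ m ∈ Icc 1 K, |∑ n ∈ Ioc Y X, F l (n + k) * F l (n + m)| ≤
      K * μ + 2 * C + ((X : ℝ) - Y) + 2 * K * K := by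
  rw [mem_Icc] at hk
  have hsplit : Icc 1 K = (Icc 1 (k - 1) ∪ {k}) ∪ Icc (k + 1) K := by
    ext m
    simp only [mem_union, mem_Icc, mem_singleton]
    omega
  have hd1 : Disjoint (Icc 1 (k - 1) ∪ {k}) (Icc (k + 1) K) := by
    rw [Finset.disjoint_left]
    intro m
    simp only [mem_union, mem_Icc, mem_singleton]
    omega
  have hd2 : Disjoint (Icc 1 (k - 1)) {k} := by
    rw [Finset.disjoint_left]
    intro m
    simp only [mem_Icc, mem_singleton]
    omega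
  have hKr : (k : ℝ) ≤ K := by exact_mod_cast hk.2
  have h1 : ∑ m ∈ Icc (k + 1) K, |∑ n ∈ Ioc Y X, F l (n + k) * F l (n + m)| ≤
      ((K - k : ℕ) : ℝ) * μ + C + (K - k : ℕ) * (2 * K) := by
    have e1 : ∑ m ∈ Icc (k + 1) K, |∑ n ∈ Ioc Y X, F l (n + k) * F l (n + m)| =
        ∑ j ∈ Icc 1 (K - k), |∑ n ∈ Ioc Y X, F l (n + k) * F l (n + (k + j))| := by
      symm
      refine sum_bij (fun j _ => k + j) ?_ ?_ ?_ ?_
      · intro j hj
        rw [mem_Icc] at hj ⊢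
        omega
      · intro i _ j _ hij
        beta_reduce at hij
        omega
      · intro m hm2
        rw [mem_Icc] at hm2
        exact ⟨m - k, by rw [mem_Icc]; omega, by omega⟩
      · intro j _
        rfl
    rw [e1]
    have h2 : ∀ j ∈ Icc 1 (K - k), |∑ n ∈ Ioc Y X, F l (n + k) * F l (n + (k + j))| ≤
        |SS l j Y X| + 2 * K := fun j _ => (gram_le hl Y X k j h).trans (by linarith)
    refine (sum_le_sum h2).trans ?_
    rw [sum_add_distrib, sum_const, Nat.card_Icc, nsmul_eq_mul, Nat.add_sub_cancel]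
    have := hm (K - k) (by omega)
    linarith
  have h2 : ∑ m ∈ Icc 1 (k - 1), |∑ n ∈ Ioc Y X, F l (n + k) * F l (n + m)| ≤
      ((k - 1 : ℕ) : ℝ) * μ + C + (k - 1 : ℕ) * (2 * K) := by
    have e1 : ∑ m ∈ Icc 1 (k - 1), |∑ n ∈ Ioc Y X, F l (n + k) * F l (n + m)| =
        ∑ j ∈ Icc 1 (k - 1), |∑ n ∈ Ioc Y X, F l (n + (k - j)) * F l (n + ((k - j) + j))| := by
      symm
      refine sum_bij (fun j _ => k - j) ?_ ?_ ?_ ?_
      · intro j hj
        rw [mem_Icc] at hj ⊢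
        omega
      · intro i hi j hj hij
        rw [mem_Icc] at hi hj
        beta_reduce at hij
        omega
      · intro m hm2
        rw [mem_Icc] at hm2
        exact ⟨k - m, by rw [mem_Icc]; omega, by omega⟩
      · intro j hj
        rw [mem_Icc] at hj
        have : k - j + j = k := by omega
        rw [this]
        congr 1
        refine sum_congr rfl fun n _ => mul_comm _ _
    rw [e1]
    have h2 : ∀ j ∈ Icc 1 (k - 1), |∑ n ∈ Ioc Y X, F l (n + (k - j)) * F l (n + ((k - j) + j))| ≤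
        |SS l j Y X| + 2 * K := by
      intro j _
      refine (gram_le hl Y X (k - j) j h).trans ?_
      have : ((k - j : ℕ) : ℝ) ≤ K := by exact_mod_cast (by omega : k - j ≤ K)
      linarith
    refine (sum_le_sum h2).trans ?_
    rw [sum_add_distrib, sum_const, Nat.card_Icc, nsmul_eq_mul, Nat.add_sub_cancel]
    have := hm (k - 1) (by omega)
    linarith
  have h3 : |∑ n ∈ Ioc Y X, F l (n + k) * F l (n + k)| ≤ (X : ℝ) - Y := by
    refine abs_sum_Ioc_le (fun n => ?_) h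
    rw [F_mul_self hl, abs_one]
  rw [hsplit, sum_union hd1, sum_union hd2, sum_singleton]
  have e1 : ((K - k : ℕ) : ℝ) = K - k := Nat.cast_sub hk.2
  have e2 : ((k - 1 : ℕ) : ℝ) = k - 1 := by rw [Nat.cast_sub hk.1, Nat.cast_one]
  rw [e1] at h1
  rw [e2] at h2
  have hk1 : (1 : ℝ) ≤ k := by exact_mod_cast hk.1
  have hK0 : (0 : ℝ) ≤ K := Nat.cast_nonneg K
  have : (K - k : ℝ) * (2 * K) + (k - 1) * (2 * K) ≤ 2 * K * K := by nlinarith
  have h6 : (K - k : ℝ) * μ + (k - 1) * μ ≤ K * μ := by nlinarith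
  linarith

/-- **arbitrary weights, mean square over the lengths** -/
theorem bessel (hl : ∀ n, l n = 1 ∨ l n = -1) (ξ : ℕ → ℂ) (hξ : ∀ n, ‖ξ n‖ ≤ 1) (Y X K : ℕ) (h : Y ≤ X)
    (μ C : ℝ) (hμ : 0 ≤ μ) (hC : 0 ≤ C)
    (hm : ∀ m, m ≤ K → ∑ j ∈ Icc 1 m, |SS l j Y X| ≤ m * μ + C) :
    ∑ k ∈ Icc 1 K, ‖∑ n ∈ Ioc Y X, ξ n * (Pk l k n : ℂ)‖ ^ 2 ≤
      ((X : ℝ) - Y) * (K * μ + 2 * C + ((X : ℝ) - Y) + 2 * K * K) := by
  set R : ℝ := K * μ + 2 * C + ((X : ℝ) - Y) + 2 * K * K with hR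
  have hXY : (0 : ℝ) ≤ (X : ℝ) - Y := by
    rw [sub_nonneg]
    exact_mod_cast h
  have hR0 : 0 ≤ R := by positivity
  have hrow := fun k hk => row_le hl Y X K h μ C hm k hk hμ
  have b1 := bessel_real (fun n => (ξ n).re * F l n) (F l) (Ioc Y X) (Icc 1 K) R hR0 hrow
  have b2 := bessel_real (fun n => (ξ n).im * F l n) (F l) (Ioc Y X) (Icc 1 K) R hR0 hrow
  have e : ∀ k ∈ Icc 1 K, ‖∑ n ∈ Ioc Y X, ξ n * (Pk l k n : ℂ)‖ ^ 2 =
      (∑ n ∈ Ioc Y X, (ξ n).re * F l n * F l (n + k)) ^ 2 +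
      (∑ n ∈ Ioc Y X, (ξ n).im * F l n * F l (n + k)) ^ 2 := by
    intro k _
    rw [← Complex.normSq_eq_norm_sq, Complex.normSq_apply, Complex.re_sum, Complex.im_sum, pow_two, pow_two]
    have r1 : ∀ n, (ξ n * (Pk l k n : ℂ)).re = (ξ n).re * F l n * F l (n + k) := by
      intro n
      rw [Complex.re_mul_ofReal, Pk_eq hl]
      ring
    have r2 : ∀ n, (ξ n * (Pk l k n : ℂ)).im = (ξ n).im * F l n * F l (n + k) := by
      intro n
      rw [Complex.im_mul_ofReal, Pk_eq hl]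
      ring
    simp only [r1, r2]
  rw [sum_congr rfl e, sum_add_distrib]
  refine (add_le_add b1 b2).trans ?_
  rw [← add_mul, ← sum_add_distrib]
  refine mul_le_mul_of_nonneg_right ?_ hR0
  have h5 : ∀ n ∈ Ioc Y X, ((ξ n).re * F l n) ^ 2 + ((ξ n).im * F l n) ^ 2 ≤ 1 := by
    intro n _
    have h6 := F_mul_self hl n
    have h7 : ‖ξ n‖ ^ 2 ≤ 1 := by
      have := hξ n
      have h0 := norm_nonneg (ξ n)
      nlinarith
    rw [← Complex.normSq_eq_norm_sq, Complex.normSq_apply] at h7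
    nlinarith
  refine (sum_le_sum h5).trans ?_
  rw [sum_const, Nat.card_Ioc, nsmul_eq_mul, mul_one, Nat.cast_sub h]

end Pool.Agent.Helper87.T
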