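import Pool.Agent.Helper87.T.Four

/-!
Consequences of the bound for the pairs of lengths `k`, `k + 2`: means over the lengths.
-/

set_option autoImplicit false

open Finset

namespace Pool.Agent.Helper87.T

open Pool.Agent.TH893.CL (num num_mono num_or num_le_card num_nonneg sum_le_of_num)

/-- the even numbers up to `K` -/
lemma sum_even (K : ℕ) (c : ℝ) (hc : 0 ≤ c) : ∑ k ∈ Icc 1 K, (if Even k then c else 0) ≤ c * K / 2 := by
  have h : ∀ K : ℕ, ∑ k ∈ Icc 1 K, (if Even k then c else 0) = c * (K / 2 : ℕ) := by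
    intro K
    induction K with
    | zero => simp
    | succ K ih =>
      rw [sum_Icc_succ_top (by omega), ih]
      split_ifs with h
      · obtain ⟨r, hr⟩ := h
        have e1 : (K + 1) / 2 = K / 2 + 1 := by omega
        rw [e1]
        push_cast
        ring
      · rw [Nat.not_even_iff_odd] at h
        obtain ⟨r, hr⟩ := h
        have e1 : (K + 1) / 2 = K / 2 := by omega
        rw [e1, add_zero]
  rw [h]
  have h1 : ((K / 2 : ℕ) : ℝ) ≤ K / 2 := Nat.cast_div_le
  have := mul_le_mul_of_nonneg_left h1 hc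
  linarith

lemma sum_two_shift (f : ℕ → ℝ) (hf : ∀ k, 0 ≤ f k) (M : ℝ) (hM : ∀ k, f k ≤ M) (K : ℕ) :
    2 * ∑ k ∈ Icc 1 K, f k ≤ ∑ k ∈ Icc 1 K, (f k + f (k + 2)) + 2 * M := by
  have h : ∑ k ∈ Icc 1 K, f (k + 2) + f 1 + f 2 = ∑ k ∈ Icc 1 K, f k + f (K + 1) + f (K + 2) := by
    induction K with
    | zero => simp
    | succ K ih =>
      rw [sum_Icc_succ_top (by omega), sum_Icc_succ_top (by omega)]
      have e1 : f (K + 1 + 2) = f (K + 3) := rfl
      have e2 : f (K + 1 + 1) = f (K + 2) := rfl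
      rw [e1, e2]
      linarith
  rw [sum_add_distrib]
  have := hf (K + 1)
  have := hf (K + 2)
  have := hM 1
  have := hM 2
  linarith

/-- **the mean over the lengths**, from the pairs and the odd lengths -/
theorem mean_fixed (f : ℕ → ℝ) (hf : ∀ k, 0 ≤ f k) (I M ε : ℝ) (hI : 0 ≤ I) (hε : 0 ≤ ε) (hM : ∀ k, f k ≤ M)
    (K : ℕ) (hodd : ∀ k, k ≤ K + 2 → Odd k → f k ≤ ε * M)
    (hp : num (Icc 1 K) (fun k => ¬ f k + f (k + 2) ≤ 3 / 4 * I + ε * M) ≤ ε * K) :
    ∑ k ∈ Icc 1 K, f k ≤ K * (3 / 16 * I + 2 * ε * M) + M := by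
  have hM0 : 0 ≤ M := (hf 0).trans (hM 0)
  have h1 := sum_two_shift f hf M hM K
  set h : ℕ → ℝ := fun k => f k + f (k + 2) - (if Even k then 3 / 4 * I else 0) with hh
  have hsum : ∑ k ∈ Icc 1 K, (f k + f (k + 2)) = ∑ k ∈ Icc 1 K, h k +
      ∑ k ∈ Icc 1 K, (if Even k then 3 / 4 * I else 0) := by
    rw [← sum_add_distrib]
    refine sum_congr rfl fun k _ => ?_
    simp only [hh]
    ring
  have h2 := sum_even K (3 / 4 * I) (by positivity)
  have h3 := sum_le_of_num (I := Icc 1 K) (f := h) (u := 2 * (ε * M)) (M := 2 * M) (by positivity) (fun k _ => by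
    simp only [hh]
    have a1 := hM k
    have a2 := hM (k + 2)
    have a3 : 0 ≤ (if Even k then 3 / 4 * I else 0) := by split_ifs <;> positivity
    linarith)
  rw [Nat.card_Icc, Nat.add_sub_cancel] at h3
  have h4 : num (Icc 1 K) (fun k => ¬ h k ≤ 2 * (ε * M)) ≤ ε * K := by
    refine (num_mono fun k hk hk2 hk3 => ?_).trans hp
    refine hk2 ?_
    simp only [hh]
    have hk4 := (mem_Icc.1 hk).2
    have hεM : 0 ≤ ε * M := by positivity
    split_ifs with he
    · linarith
    · rw [Nat.not_even_iff_odd] at he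
      have b1 := hodd k (by omega) he
      have b2 := hodd (k + 2) (by omega) (by
        obtain ⟨r, hr⟩ := he
        exact ⟨r + 1, by omega⟩)
      linarith
  have h5 := mul_le_mul_of_nonneg_left h4 (by positivity : 0 ≤ 2 * M)
  have : K * (3 / 16 * I + 2 * ε * M) + M = (K * (2 * (ε * M)) + 2 * M * (ε * K) + 3 / 4 * I * K / 2 + 2 * M) / 2 := by
    ring
  linarith

/-- **the number of large lengths** -/
theorem count_fixed (f : ℕ → ℝ) (I M ε : ℝ) (hI : 0 ≤ I) (hM : 0 ≤ M) (hε : 0 ≤ ε)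
    (K : ℕ) (hodd : ∀ k, k ≤ K + 2 → Odd k → f k ≤ ε * M)
    (hp : num (Icc 1 K) (fun k => ¬ f k + f (k + 2) ≤ 3 / 4 * I + ε * M) ≤ ε * K) :
    num (Icc 1 K) (fun k => 3 / 8 * I + ε * M < f k) ≤ (1 / 4 + ε) * K + 1 := by
  classical
  set B := (Icc 1 K).filter (fun k => 3 / 8 * I + ε * M < f k) with hB
  set X := (Icc 1 K).filter (fun k => ¬ f k + f (k + 2) ≤ 3 / 4 * I + ε * M) with hX
  have hεM : 0 ≤ ε * M := by positivity
  have heven : ∀ k ∈ B, Even k := by
    intro k hk
    rw [hB, mem_filter, mem_Icc] at hk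
    by_contra he
    rw [Nat.not_even_iff_odd] at he
    have := hodd k (by omega) he
    linarith [hk.2]
  set C := B \ X with hC
  -- `C` and `C + 2` are disjoint sets of even numbers
  have hdisj : Disjoint C (C.image (· + 2)) := by
    rw [Finset.disjoint_left]
    intro k hk hk2
    rw [mem_image] at hk2
    obtain ⟨m, hm, rfl⟩ := hk2
    rw [hC, mem_sdiff, hB, hX, mem_filter, mem_filter] at hm hk
    have h1 := hm.1.2
    have h2 := hk.1.2
    apply hm.2
    refine ⟨hm.1.1, fun hcon => ?_⟩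
    beta_reduce at h2
    linarith
  have hsub : C ∪ C.image (· + 2) ⊆ (range (K / 2 + 1)).image (fun r => 2 * (r + 1)) := by
    intro k hk
    rw [mem_union, mem_image] at hk
    rw [mem_image]
    rcases hk with hk | ⟨m, hm, rfl⟩
    · have h1 := heven k (mem_sdiff.1 hk).1
      have h2 := (mem_sdiff.1 hk).1
      rw [hB, mem_filter, mem_Icc] at h2
      obtain ⟨r, hr⟩ := h1
      exact ⟨r - 1, by rw [mem_range]; omega, by omega⟩
    · have h1 := heven m (mem_sdiff.1 hm).1
      have h2 := (mem_sdiff.1 hm).1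
      rw [hB, mem_filter, mem_Icc] at h2
      obtain ⟨r, hr⟩ := h1
      exact ⟨r, by rw [mem_range]; omega, by omega⟩
  have h1 := card_le_card hsub
  rw [card_union_of_disjoint hdisj, card_image_of_injective _ (add_left_injective 2)] at h1
  have h2 : ((range (K / 2 + 1)).image (fun r => 2 * (r + 1))).card ≤ K / 2 + 1 :=
    card_image_le.trans (by rw [card_range])
  have h3 : B.card ≤ C.card + X.card := by
    have := card_le_card (show B ⊆ C ∪ X by
      intro k hk
      rw [mem_union, hC, mem_sdiff]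
      by_cases h : k ∈ X
      · exact Or.inr h
      · exact Or.inl ⟨hk, h⟩)
    exact this.trans (card_union_le _ _)
  have h4 : (X.card : ℝ) ≤ ε * K := by
    unfold num at hp
    convert hp
  have h5 : num (Icc 1 K) (fun k => 3 / 8 * I + ε * M < f k) = B.card := by
    unfold num
    rw [hB]
  rw [h5]
  have h6 : (B.card : ℝ) ≤ C.card + X.card := by exact_mod_cast h3
  have h7 : 2 * (C.card : ℝ) ≤ K / 2 + 1 := by
    have : 2 * C.card ≤ K / 2 + 1 := by omega
    have h8 : ((2 * C.card : ℕ) : ℝ) ≤ ((K / 2 + 1 : ℕ) : ℝ) := by exact_mod_cast this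
    have h9 : ((K / 2 : ℕ) : ℝ) ≤ K / 2 := Nat.cast_div_le
    push_cast at h8
    linarith
  linarith

end Pool.Agent.Helper87.T
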