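import Pool.Graph.R_seed8.TH893.CL.Black

/-!
Products of `k` and of `k + 2` consecutive terms of a sign sequence: an inequality for four signs.
-/

set_option autoImplicit false

open Finset

namespace Pool.Agent.Helper87.T

open Pool.Agent.TH893.CL (Pk SS F Pk_eq F_succ F_mul_self sq_one Pk_abs num num_mono abs_sum_Ioc_le)

lemma four_signs (x y z w σ τ : ℝ) (hx : x = 1 ∨ x = -1) (hy : y = 1 ∨ y = -1) (hz : z = 1 ∨ z = -1)
    (hw : w = 1 ∨ w = -1) (hσ : σ = 1 ∨ σ = -1) (hτ : τ = 1 ∨ τ = -1) :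
    σ * (x + y) + τ * (z + w) ≤
      3 / 2 + (x * y + z * w + σ * τ * (x * z + x * w + y * z + y * w)) / 2 - x * y * (z * w) / 2 := by
  rcases hx with rfl | rfl <;> rcases hy with rfl | rfl <;> rcases hz with rfl | rfl <;>
    rcases hw with rfl | rfl <;> rcases hσ with rfl | rfl <;> rcases hτ with rfl | rfl <;> norm_num

lemma shift_one (f : ℕ → ℝ) (hf : ∀ n, |f n| ≤ 1) (Y X : ℕ) (h : Y ≤ X) :
    |∑ n ∈ Ioc Y X, f (n + 1) - ∑ n ∈ Ioc Y X, f n| ≤ 2 := by
  have hshift : ∑ n ∈ Ioc Y X, f (n + 1) = ∑ n ∈ Ioc Y X, f n + f (X + 1) - f (Y + 1) := by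
    induction X, h using Nat.le_induction with
    | base => simp
    | succ X hX ih =>
      rw [← Finset.insert_Ioc_right_eq_Ioc_add_one (by omega), sum_insert (by simp), sum_insert (by simp), ih]
      ring
  rw [hshift]
  have h1 := hf (X + 1)
  have h2 := hf (Y + 1)
  rw [abs_le] at *
  constructor <;> linarith

variable {l : ℕ → ℝ}

/-- the pointwise inequality -/
lemma pointwise (hl : ∀ n, l n = 1 ∨ l n = -1) (k n : ℕ) (σ τ : ℝ) (hσ : σ = 1 ∨ σ = -1)
    (hτ : τ = 1 ∨ τ = -1) :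
    σ * (Pk l k n + Pk l k (n + 1)) + τ * (Pk l (k + 2) n + Pk l (k + 2) (n + 1)) ≤
      3 / 2 + (l n * l (n + k) + l n * l (n + k + 2) + σ * τ * (l (n + k) * l (n + k + 1) +
        l n * (l (n + k) * l (n + k + 1) * l (n + k + 2)) + l n * l (n + k + 1) +
        l (n + k + 1) * l (n + k + 2))) / 2 - l (n + k) * l (n + k + 2) / 2 := by
  have hpm : ∀ x : ℝ, |x| = 1 → x = 1 ∨ x = -1 := by
    intro x hx
    rcases abs_cases x with ⟨h, _⟩ | ⟨h, _⟩
    · left; linarith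
    · right; linarith
  have h := four_signs (Pk l k n) (Pk l k (n + 1)) (Pk l (k + 2) n) (Pk l (k + 2) (n + 1)) σ τ
    (hpm _ (Pk_abs hl _ _)) (hpm _ (Pk_abs hl _ _)) (hpm _ (Pk_abs hl _ _)) (hpm _ (Pk_abs hl _ _)) hσ hτ
  refine h.trans (le_of_eq ?_)
  have e1 : F l (n + 1) = F l n * l n := F_succ n
  have e2 : F l (n + k + 1) = F l (n + k) * l (n + k) := F_succ _
  have e3 : F l (n + k + 2) = F l (n + k) * l (n + k) * l (n + k + 1) := by
    rw [show n + k + 2 = n + k + 1 + 1 by ring, F_succ, e2]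
  have e4 : F l (n + k + 3) = F l (n + k) * l (n + k) * l (n + k + 1) * l (n + k + 2) := by
    rw [show n + k + 3 = n + k + 2 + 1 by ring, F_succ, e3]
  have x1 : Pk l k n = F l n * F l (n + k) := Pk_eq hl k n
  have x2 : Pk l k (n + 1) = F l n * l n * (F l (n + k) * l (n + k)) := by
    rw [Pk_eq hl, show n + 1 + k = n + k + 1 by ring, e1, e2]
  have x3 : Pk l (k + 2) n = F l n * (F l (n + k) * l (n + k) * l (n + k + 1)) := by
    rw [Pk_eq hl, show n + (k + 2) = n + k + 2 by ring, e3]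
  have x4 : Pk l (k + 2) (n + 1) = F l n * l n * (F l (n + k) * l (n + k) * l (n + k + 1) * l (n + k + 2)) := by
    rw [Pk_eq hl, show n + 1 + (k + 2) = n + k + 3 by ring, e1, e4]
  rw [x1, x2, x3, x4]
  have f1 := F_mul_self hl n
  have f2 := F_mul_self hl (n + k)
  have f3 := sq_one hl n
  have f4 := sq_one hl (n + k)
  have f5 := sq_one hl (n + k + 1)
  generalize F l n = f at *
  generalize F l (n + k) = g at *
  generalize l n = a at *
  generalize l (n + k) = b at *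
  generalize l (n + k + 1) = c at *
  generalize l (n + k + 2) = d at *
  have p1 : f * g * (f * a * (g * b)) = a * b := by
    linear_combination (a * b * g * g) * f1 + (a * b) * f2
  have p2 : f * (g * b * c) * (f * a * (g * b * c * d)) = a * d := by
    linear_combination (a * d * g * g * b * b * c * c) * f1 + (a * d * b * b * c * c) * f2 +
      (a * d * c * c) * f4 + (a * d) * f5
  have p3 : f * g * (f * (g * b * c)) = b * c := by
    linear_combination (b * c * g * g) * f1 + (b * c) * f2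
  have p4 : f * g * (f * a * (g * b * c * d)) = a * (b * c * d) := by
    linear_combination (a * b * c * d * g * g) * f1 + (a * b * c * d) * f2
  have p5 : f * a * (g * b) * (f * (g * b * c)) = a * c := by
    linear_combination (a * c * g * g * b * b) * f1 + (a * c * b * b) * f2 + (a * c) * f4
  have p6 : f * a * (g * b) * (f * a * (g * b * c * d)) = c * d := by
    linear_combination (c * d * g * g * b * b * a * a) * f1 + (c * d * b * b * a * a) * f2 +
      (c * d * b * b) * f3 + (c * d) * f4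
  rw [p1, p2, p3, p4, p5, p6]
  have p7 : a * b * (a * d) = b * d := by linear_combination (b * d) * f3
  rw [p7]

/-- **the core inequality** -/
theorem core (hl : ∀ n, l n = 1 ∨ l n = -1) (k Y X : ℕ) (hYX : Y ≤ X) :
    2 * |SS l k Y X| + 2 * |SS l (k + 2) Y X| ≤ 3 / 2 * ((X : ℝ) - Y) + 4 +
      (|∑ n ∈ Ioc Y X, l n * l (n + k)| + |∑ n ∈ Ioc Y X, l n * l (n + k + 1)| +
       |∑ n ∈ Ioc Y X, l n * l (n + k + 2)| +
       |∑ n ∈ Ioc Y X, l n * (l (n + k) * l (n + k + 1) * l (n + k + 2))| +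
       |∑ n ∈ Ioc Y X, l (n + k) * l (n + k + 1)| + |∑ n ∈ Ioc Y X, l (n + k + 1) * l (n + k + 2)| +
       |∑ n ∈ Ioc Y X, l (n + k) * l (n + k + 2)|) / 2 := by
  have key : ∀ σ τ : ℝ, (σ = 1 ∨ σ = -1) → (τ = 1 ∨ τ = -1) →
      σ * (2 * SS l k Y X) + τ * (2 * SS l (k + 2) Y X) ≤ 3 / 2 * ((X : ℝ) - Y) + 4 +
      (|∑ n ∈ Ioc Y X, l n * l (n + k)| + |∑ n ∈ Ioc Y X, l n * l (n + k + 1)| +
       |∑ n ∈ Ioc Y X, l n * l (n + k + 2)| +
       |∑ n ∈ Ioc Y X, l n * (l (n + k) * l (n + k + 1) * l (n + k + 2))| +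
       |∑ n ∈ Ioc Y X, l (n + k) * l (n + k + 1)| + |∑ n ∈ Ioc Y X, l (n + k + 1) * l (n + k + 2)| +
       |∑ n ∈ Ioc Y X, l (n + k) * l (n + k + 2)|) / 2 := by
    intro σ τ hσ hτ
    have h1 := sum_le_sum (s := Ioc Y X) fun n _ => pointwise hl k n σ τ hσ hτ
    have a1 := shift_one (Pk l k) (fun n => (Pk_abs hl k n).le) Y X hYX
    have a2 := shift_one (Pk l (k + 2)) (fun n => (Pk_abs hl (k + 2) n).le) Y X hYX
    simp only [sum_sub_distrib, sum_add_distrib, ← sum_div, ← mul_sum, sum_const, Nat.card_Ioc,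
      nsmul_eq_mul, Nat.cast_sub hYX] at h1
    unfold SS
    have b1 := le_abs_self (∑ n ∈ Ioc Y X, l n * l (n + k))
    have b2 := le_abs_self (∑ n ∈ Ioc Y X, l n * l (n + k + 2))
    have b3 := neg_abs_le (∑ n ∈ Ioc Y X, l (n + k) * l (n + k + 2))
    have c1 := abs_le.1 (le_refl |∑ n ∈ Ioc Y X, l (n + k) * l (n + k + 1)|)
    have c2 := abs_le.1 (le_refl |∑ n ∈ Ioc Y X, l n * (l (n + k) * l (n + k + 1) * l (n + k + 2))|)
    have c3 := abs_le.1 (le_refl |∑ n ∈ Ioc Y X, l n * l (n + k + 1)|)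
    have c4 := abs_le.1 (le_refl |∑ n ∈ Ioc Y X, l (n + k + 1) * l (n + k + 2)|)
    rw [abs_le] at a1 a2
    obtain ⟨a11, a12⟩ := a1
    obtain ⟨a21, a22⟩ := a2
    obtain ⟨c11, c12⟩ := c1
    obtain ⟨c21, c22⟩ := c2
    obtain ⟨c31, c32⟩ := c3
    obtain ⟨c41, c42⟩ := c4
    rcases hσ with rfl | rfl <;> rcases hτ with rfl | rfl <;> linarith
  have h1 := key 1 1 (Or.inl rfl) (Or.inl rfl)
  have h2 := key 1 (-1) (Or.inl rfl) (Or.inr rfl)
  have h3 := key (-1) 1 (Or.inr rfl) (Or.inl rfl)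
  have h4 := key (-1) (-1) (Or.inr rfl) (Or.inr rfl)
  rcases abs_cases (SS l k Y X) with ⟨hx, _⟩ | ⟨hx, _⟩ <;>
    rcases abs_cases (SS l (k + 2) Y X) with ⟨hy, _⟩ | ⟨hy, _⟩ <;> rw [hx, hy] <;> linarith

end Pool.Agent.Helper87.T
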