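import Pool.Agent.Helper87.T.Main

/-!
The logarithmic sums over the products of `k` consecutive values.
-/

set_option autoImplicit false

open Finset Filter

namespace Pool.Agent.Helper87.T

open Pool.Agent.X23.CS (LogDensityZero Two log_part harmonic_le)
open Pool.Agent.TH893.CL (Pk SS lr lr_pm num num_mono num_or num_nonneg Pk_abs abs_sum_Ioc_le sum_le_of_num)

/-- the logarithmic sums -/
noncomputable def LS (l : ℕ → ℝ) (k X : ℕ) : ℝ := ∑ n ∈ Icc 1 X, Pk l k n / n

lemma SS_zero (l : ℕ → ℝ) (k N : ℕ) : SS l k 0 N = ∑ n ∈ Icc 1 N, Pk l k n := by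
  unfold SS
  refine sum_congr ?_ fun _ _ => rfl
  ext n
  simp only [mem_Ioc, mem_Icc]
  omega

lemma LS_le {l : ℕ → ℝ} (hl : ∀ n, l n = 1 ∨ l n = -1) (k X : ℕ) : |LS l k X| ≤ 1 + Real.log X := by
  unfold LS
  refine (abs_sum_le_sum_abs _ _).trans (le_trans (le_of_eq ?_) (harmonic_le X))
  refine sum_congr rfl fun n _ => ?_
  rw [abs_div, Pk_abs hl, abs_of_nonneg (Nat.cast_nonneg n)]

/-- the sign attached to a set -/
noncomputable def sg (S : Finset ℕ) (k : ℕ) : ℝ := by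
  classical
  exact if k ∈ S then 1 else -1

lemma sg_abs (S : Finset ℕ) (k : ℕ) : |sg S k| = 1 := by
  unfold sg
  split_ifs <;> norm_num

/-- the combination of the products -/
noncomputable def cb (l : ℕ → ℝ) (K : ℕ) (T S R : Finset ℕ) (n : ℕ) : ℝ :=
  (∑ k ∈ T, (sg S k * Pk l k n + sg R k * Pk l (k + 2) n)) / (2 * K)

lemma cb_abs {l : ℕ → ℝ} (hl : ∀ n, l n = 1 ∨ l n = -1) (K : ℕ) (hK : 1 ≤ K) (T S R : Finset ℕ) (hT : T ⊆ Icc 1 K)
    (n : ℕ) : |cb l K T S R n| ≤ 1 := by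
  have hK0 : (0 : ℝ) < K := by exact_mod_cast hK
  unfold cb
  rw [abs_div, abs_of_pos (by positivity : (0 : ℝ) < 2 * K), div_le_one (by positivity)]
  refine (abs_sum_le_sum_abs _ _).trans ?_
  have h1 : ∀ k ∈ T, |sg S k * Pk l k n + sg R k * Pk l (k + 2) n| ≤ 2 := by
    intro k _
    refine (abs_add_le _ _).trans ?_
    rw [abs_mul, abs_mul, sg_abs, sg_abs, Pk_abs hl, Pk_abs hl]
    norm_num
  refine (sum_le_sum h1).trans ?_
  rw [sum_const, nsmul_eq_mul]
  have h2 := card_le_card hT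
  rw [Nat.card_Icc, Nat.add_sub_cancel] at h2
  have h3 : (T.card : ℝ) ≤ K := by exact_mod_cast h2
  linarith

lemma cb_sum (l : ℕ → ℝ) (K : ℕ) (T S R : Finset ℕ) (w : ℕ → ℝ) (I : Finset ℕ) :
    ∑ n ∈ I, cb l K T S R n * w n =
      (∑ k ∈ T, (sg S k * ∑ n ∈ I, Pk l k n * w n + sg R k * ∑ n ∈ I, Pk l (k + 2) n * w n)) / (2 * K) := by
  unfold cb
  have h1 : ∀ n ∈ I, (∑ k ∈ T, (sg S k * Pk l k n + sg R k * Pk l (k + 2) n)) / (2 * K) * w n =
      (∑ k ∈ T, (sg S k * (Pk l k n * w n) + sg R k * (Pk l (k + 2) n * w n))) / (2 * K) := by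
    intro n _
    rw [div_mul_eq_mul_div, sum_mul]
    congr 1
    refine sum_congr rfl fun k _ => ?_
    ring
  rw [sum_congr rfl h1, ← sum_div, sum_comm]
  congr 1
  refine sum_congr rfl fun k _ => ?_
  rw [sum_add_distrib, mul_sum, mul_sum]

section

variable {E E' : Set ℕ} (hE : LogDensityZero E) (h2 : Two E') (h3 : OddP E')
  (hEE : ∀ a B : ℕ, 1 ≤ a → ∃ N₀ : ℕ, ∀ N : ℕ, N₀ ≤ N → N ∉ E → (2 * a + B) * N ∉ E')

include hE h3 hEE in
/-- odd lengths -/
theorem log_odd (a b k : ℕ) (ha : 1 ≤ a) (hk : Odd k) (ε : ℝ) (hε : 0 < ε) : ∃ X₀ : ℕ, ∀ X : ℕ, X₀ ≤ X →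
    |LS (lr a b) k X| ≤ ε * Real.log X := by
  obtain ⟨N₁, hN₁⟩ := hEE a b ha
  obtain ⟨X₀, h⟩ := log_part hE (Pk (lr a b) k) (fun n => (Pk_abs (lr_pm a b) k n).le) 0 le_rfl
    (fun δ hδ => by
      obtain ⟨N₀, h⟩ := odd_ap h3 a b k ha hk δ hδ
      refine ⟨max N₀ (max N₁ 1), fun N hN hNE => ?_⟩
      have k1 : N₀ ≤ N := (le_max_left _ _).trans hN
      have k2 : N₁ ≤ N := (le_max_left _ _).trans ((le_max_right _ _).trans hN)
      have k3 : 1 ≤ N := (le_max_right _ _).trans ((le_max_right _ _).trans hN)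
      have h4 := h N k1 (hN₁ N k2 hNE) b (Nat.le_mul_of_pos_right _ k3) 0 N (Nat.zero_le _) (by omega)
      rw [SS_zero] at h4
      rw [zero_add]
      exact h4) ε hε
  refine ⟨X₀, fun X hX => ?_⟩
  have := h X hX
  rw [zero_add] at this
  exact this

include hE h2 hEE in
/-- the pairs of lengths -/
theorem log_pairs (a b : ℕ) (ha : 1 ≤ a) (ε : ℝ) (hε : 0 < ε) : ∃ K₀ : ℕ, ∀ K : ℕ, K₀ ≤ K →
    ∃ X₀ : ℕ, ∀ X : ℕ, X₀ ≤ X →
    num (Icc 1 K) (fun k => ¬ |LS (lr a b) k X| + |LS (lr a b) (k + 2) X| ≤ (3 / 4 + ε) * Real.log X) ≤ ε * K := by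
  classical
  set ε' : ℝ := ε ^ 2 / 6 with hε'
  have hε'0 : 0 < ε' := by positivity
  obtain ⟨K₁, N₁, hA⟩ := partA h2 a b ha ε' hε'0
  obtain ⟨N₂, hN₂⟩ := hEE a b ha
  refine ⟨K₁ + 1, fun K hK => ?_⟩
  set l := lr a b with hl
  have hlpm : ∀ n, l n = 1 ∨ l n = -1 := lr_pm a b
  have hK0 : (0 : ℝ) < K := by exact_mod_cast (by omega : 0 < K)
  have key : ∀ T S R : Finset ℕ, ∃ X₀ : ℕ, T ⊆ Icc 1 K → ∀ X : ℕ, X₀ ≤ X →
      |∑ n ∈ Icc 1 X, cb l K T S R n / n| ≤ (3 * T.card / (8 * K) + 2 * ε' + ε') * Real.log X := by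
    intro T S R
    by_cases hT : T ⊆ Icc 1 K
    swap
    · exact ⟨0, fun h => absurd h hT⟩
    obtain ⟨X₀, h⟩ := log_part hE (cb l K T S R) (cb_abs hlpm K (by omega) T S R hT)
      (3 * T.card / (8 * K) + 2 * ε') (by positivity) (fun δ hδ => by
        refine ⟨N₁ + N₂ + K, fun N hN hNE => ?_⟩
        have hN0 : (0 : ℝ) ≤ N := Nat.cast_nonneg N
        have h1 := cb_sum l K T S R (fun _ => 1) (Icc 1 N)
        simp only [mul_one] at h1
        rw [h1]
        have h4 : ∑ k ∈ T, (|SS l k 0 N| + |SS l (k + 2) 0 N|) ≤ T.card * ((3 / 4 + ε') * N) + 2 * N * (ε' * K) := by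
          have h5 := sum_le_of_num (I := T) (f := fun k => |SS l k 0 N| + |SS l (k + 2) 0 N|)
            (u := (3 / 4 + ε') * N) (M := 2 * N) (by positivity) (fun k _ => by
              have e1 := abs_sum_Ioc_le (fun n => (Pk_abs hlpm k n).le) (Nat.zero_le N)
              have e2 := abs_sum_Ioc_le (fun n => (Pk_abs hlpm (k + 2) n).le) (Nat.zero_le N)
              have e3 : ((0 : ℕ) : ℝ) = 0 := Nat.cast_zero
              rw [e3] at e1 e2
              unfold SS
              linarith)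
          have h6 : num T (fun k => ¬ |SS l k 0 N| + |SS l (k + 2) 0 N| ≤ (3 / 4 + ε') * N) ≤ ε' * K := by
            have h7 := hA N K (by omega) (hN₂ N (by omega) hNE) (by omega) (by omega) b
              (Nat.le_mul_of_pos_right _ (by omega))
            refine le_trans ?_ h7
            unfold num
            have h8 : T.filter (fun k => ¬ |SS l k 0 N| + |SS l (k + 2) 0 N| ≤ (3 / 4 + ε') * N) ⊆
                (Icc 1 K).filter (fun k => ¬ ∀ Y X : ℕ, Y ≤ X → X ≤ N →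
                  |SS l k Y X| + |SS l (k + 2) Y X| ≤ 3 / 4 * ((X : ℝ) - Y) + ε' * N) := by
              intro k hk
              rw [mem_filter] at hk ⊢
              refine ⟨hT hk.1, fun hcon => hk.2 ?_⟩
              have := hcon 0 N (Nat.zero_le _) le_rfl
              rw [Nat.cast_zero] at this
              linarith
            exact_mod_cast card_le_card h8
          have h9 := mul_le_mul_of_nonneg_left h6 (by positivity : (0 : ℝ) ≤ 2 * N)
          linarith
        have h5 : |∑ k ∈ T, (sg S k * ∑ n ∈ Icc 1 N, Pk l k n + sg R k * ∑ n ∈ Icc 1 N, Pk l (k + 2) n)| ≤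
            ∑ k ∈ T, (|SS l k 0 N| + |SS l (k + 2) 0 N|) := by
          refine (abs_sum_le_sum_abs _ _).trans (sum_le_sum fun k _ => ?_)
          refine (abs_add_le _ _).trans (le_of_eq ?_)
          rw [abs_mul, abs_mul, sg_abs, sg_abs, one_mul, one_mul, SS_zero, SS_zero]
        rw [abs_div, abs_of_pos (by positivity : (0 : ℝ) < 2 * K), div_le_iff₀ (by positivity)]
        refine h5.trans (h4.trans ?_)
        have h6 := card_le_card hT
        rw [Nat.card_Icc, Nat.add_sub_cancel] at h6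
        have h7 : (T.card : ℝ) ≤ K := by exact_mod_cast h6
        have e1 : (3 * T.card / (8 * K) + 2 * ε' + δ) * N * (2 * K) =
            3 / 4 * T.card * N + 4 * ε' * K * N + 2 * δ * K * N := by
          field_simp
          ring
        rw [e1]
        have h8 : ε' * N * T.card ≤ ε' * N * K := mul_le_mul_of_nonneg_left h7 (by positivity)
        have h9 : 0 ≤ 2 * δ * K * N := by positivity
        have h10 : 0 ≤ ε' * N * K := by positivity
        linarith) ε' hε'0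
    exact ⟨X₀, fun _ => h⟩
  choose x₀ hx₀ using key
  have hxall : ∀ T S R : Finset ℕ, T ⊆ Icc 1 K → S ⊆ Icc 1 K → R ⊆ Icc 1 K → x₀ T S R ≤
      ∑ T ∈ (Icc 1 K).powerset, ∑ S ∈ (Icc 1 K).powerset, ∑ R ∈ (Icc 1 K).powerset, x₀ T S R := by
    intro T S R hT hS hR
    have h1 := single_le_sum (f := fun R => x₀ T S R) (fun i _ => Nat.zero_le _) (mem_powerset.2 hR)
    have h4 := single_le_sum (f := fun S => ∑ R ∈ (Icc 1 K).powerset, x₀ T S R) (fun i _ => Nat.zero_le _)
      (mem_powerset.2 hS)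
    have h5 := single_le_sum (f := fun T => ∑ S ∈ (Icc 1 K).powerset, ∑ R ∈ (Icc 1 K).powerset, x₀ T S R)
      (fun i _ => Nat.zero_le _) (mem_powerset.2 hT)
    beta_reduce at h1 h4 h5
    exact h1.trans (h4.trans h5)
  refine ⟨3 + ∑ T ∈ (Icc 1 K).powerset, ∑ S ∈ (Icc 1 K).powerset, ∑ R ∈ (Icc 1 K).powerset, x₀ T S R,
    fun X hX => ?_⟩
  set T := (Icc 1 K).filter (fun k => ¬ |LS l k X| + |LS l (k + 2) X| ≤ (3 / 4 + ε) * Real.log X) with hT
  set S := (Icc 1 K).filter (fun k => 0 ≤ LS l k X) with hS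
  set R := (Icc 1 K).filter (fun k => 0 ≤ LS l (k + 2) X) with hR
  have hTs : T ⊆ Icc 1 K := filter_subset _ _
  have hx : x₀ T S R ≤ X :=
    (hxall T S R hTs (filter_subset _ _) (filter_subset _ _)).trans (le_trans (Nat.le_add_left _ _) hX)
  have h4 := hx₀ T S R hTs X hx
  have h5 := cb_sum l K T S R (fun n => 1 / (n : ℝ)) (Icc 1 X)
  simp only [mul_one_div] at h5
  rw [h5] at h4
  have h6 : ∑ k ∈ T, (sg S k * ∑ n ∈ Icc 1 X, Pk l k n / n + sg R k * ∑ n ∈ Icc 1 X, Pk l (k + 2) n / n) =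
      ∑ k ∈ T, (|LS l k X| + |LS l (k + 2) X|) := by
    refine sum_congr rfl fun k hk => ?_
    have hk1 := hTs hk
    have s1 : sg S k * LS l k X = |LS l k X| := by
      unfold sg
      split_ifs with h
      · rw [hS, mem_filter] at h
        rw [one_mul, abs_of_nonneg h.2]
      · have h7 : ¬ 0 ≤ LS l k X := fun h8 => h (by rw [hS, mem_filter]; exact ⟨hk1, h8⟩)
        rw [abs_of_neg (not_le.1 h7)]
        ring
    have s2 : sg R k * LS l (k + 2) X = |LS l (k + 2) X| := by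
      unfold sg
      split_ifs with h
      · rw [hR, mem_filter] at h
        rw [one_mul, abs_of_nonneg h.2]
      · have h7 : ¬ 0 ≤ LS l (k + 2) X := fun h8 => h (by rw [hR, mem_filter]; exact ⟨hk1, h8⟩)
        rw [abs_of_neg (not_le.1 h7)]
        ring
    rw [← s1, ← s2]
    rfl
  rw [h6] at h4
  have hlog : 0 < Real.log X := Real.log_pos (by exact_mod_cast (by omega : 1 < X))
  have h7 : T.card * ((3 / 4 + ε) * Real.log X) ≤ ∑ k ∈ T, (|LS l k X| + |LS l (k + 2) X|) := by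
    have : ∑ _k ∈ T, (3 / 4 + ε) * Real.log X ≤ ∑ k ∈ T, (|LS l k X| + |LS l (k + 2) X|) := by
      refine sum_le_sum fun k hk => ?_
      rw [hT, mem_filter] at hk
      exact (not_le.1 hk.2).le
    rwa [sum_const, nsmul_eq_mul] at this
  have h8 := (le_abs_self _).trans h4
  rw [div_le_iff₀ (by positivity)] at h8
  have e1 : (3 * T.card / (8 * K) + 2 * ε' + ε') * Real.log X * (2 * K) =
      (3 / 4 * T.card + 6 * ε' * K) * Real.log X := by
    field_simp
    ring
  rw [e1] at h8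
  have h9 : (ε * T.card) * Real.log X ≤ (ε * (ε * K)) * Real.log X := by
    have e2 : 6 * ε' * K = ε * (ε * K) := by rw [hε']; ring
    rw [e2] at h8
    linarith
  have h10 := le_of_mul_le_mul_right h9 hlog
  have h11 := le_of_mul_le_mul_left h10 hε
  have h12 : num (Icc 1 K) (fun k => ¬ |LS l k X| + |LS l (k + 2) X| ≤ (3 / 4 + ε) * Real.log X) = T.card := by
    unfold num
    rw [hT]
    congr!
  rw [h12]
  exact h11

include hE h2 h3 hEE in
/-- **logarithmic sums, fixed lengths** -/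
theorem logs (a b : ℕ) (ha : 1 ≤ a) (ε : ℝ) (hε : 0 < ε) : ∃ K₀ : ℕ, ∀ K : ℕ, K₀ ≤ K →
    ∃ X₀ : ℕ, ∀ X : ℕ, X₀ ≤ X →
    num (Icc 1 K) (fun k => ¬ |LS (lr a b) k X| + |LS (lr a b) (k + 2) X| ≤ (3 / 4 + ε) * Real.log X) ≤ ε * K ∧
    ∑ k ∈ Icc 1 K, |LS (lr a b) k X| ≤ K * ((3 / 16 + ε) * Real.log X) ∧
    num (Icc 1 K) (fun k => (3 / 8 + ε) * Real.log X < |LS (lr a b) k X|) ≤ (1 / 4 + ε) * K := by
  set δ : ℝ := ε / 8 with hδ
  have hδ0 : 0 < δ := by positivity
  obtain ⟨K₁, hK₁⟩ := log_pairs hE h2 hEE a b ha δ hδ0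
  obtain ⟨K₂, hK₂⟩ := exists_nat_ge (2 / δ)
  refine ⟨K₁ + K₂, fun K hK => ?_⟩
  obtain ⟨X₁, hX₁⟩ := hK₁ K (by omega)
  have hodd : ∀ k : ℕ, ∃ X₀ : ℕ, Odd k → ∀ X : ℕ, X₀ ≤ X → |LS (lr a b) k X| ≤ δ * Real.log X := by
    intro k
    by_cases hk : Odd k
    · obtain ⟨N₀, h⟩ := log_odd hE h3 hEE a b k ha hk δ hδ0
      exact ⟨N₀, fun _ => h⟩
    · exact ⟨0, fun h => absurd h hk⟩
  choose x₁ hx₁ using hodd
  refine ⟨X₁ + 3 + ∑ k ∈ range (K + 3), x₁ k, fun X hX => ?_⟩
  have hlog : 1 ≤ Real.log X := by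
    rw [Real.le_log_iff_exp_le (by exact_mod_cast (by omega : 0 < X))]
    have : Real.exp 1 ≤ 3 := by
      have := Real.exp_one_lt_d9
      linarith
    refine this.trans ?_
    exact_mod_cast (by omega : 3 ≤ X)
  have hp := hX₁ X (by omega)
  have hK0 : (0 : ℝ) ≤ K := Nat.cast_nonneg K
  have hKbig : 2 ≤ δ * K := by
    have h3 : 2 / δ ≤ K := hK₂.trans (by exact_mod_cast (by omega : K₂ ≤ K))
    rw [div_le_iff₀ hδ0] at h3
    linarith
  set f : ℕ → ℝ := fun k => |LS (lr a b) k X| with hf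
  have hM : ∀ k, f k ≤ 2 * Real.log X := fun k => (LS_le (lr_pm a b) k X).trans (by linarith)
  have ho : ∀ k, k ≤ K + 2 → Odd k → f k ≤ δ * (2 * Real.log X) := by
    intro k hk hk2
    have h1 := hx₁ k hk2 X (by
      have := single_le_sum (f := x₁) (fun i _ => Nat.zero_le _) (mem_range.2 (by omega : k < K + 3))
      omega)
    have : 0 ≤ δ * Real.log X := by positivity
    refine h1.trans ?_
    linarith
  have hp2 : num (Icc 1 K) (fun k => ¬ f k + f (k + 2) ≤ 3 / 4 * Real.log X + δ * (2 * Real.log X)) ≤ δ * K := by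
    refine (num_mono fun k _ hk hcon => hk ?_).trans hp
    have : 0 ≤ δ * Real.log X := by positivity
    refine le_trans hcon ?_
    linarith
  have hδε : δ * K ≤ ε * K := mul_le_mul_of_nonneg_right (by rw [hδ]; linarith) hK0
  refine ⟨?_, ?_, ?_⟩
  · refine (num_mono fun k _ hk hcon => hk ?_).trans (hp.trans hδε)
    refine le_trans hcon ?_
    apply mul_le_mul_of_nonneg_right _ (by linarith)
    rw [hδ]
    linarith
  · have h1 := mean_fixed f (fun k => abs_nonneg _) (Real.log X) (2 * Real.log X) δ (by linarith) hδ0.le hM K ho hp2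
    refine h1.trans ?_
    have e1 : K * (3 / 16 * Real.log X + 2 * δ * (2 * Real.log X)) + 2 * Real.log X =
        3 / 16 * K * Real.log X + (4 * (δ * K) + 2) * Real.log X := by ring
    have e2 : K * ((3 / 16 + ε) * Real.log X) = 3 / 16 * K * Real.log X + ε * K * Real.log X := by ring
    rw [e1, e2]
    have e3 : ε * K = 8 * (δ * K) := by rw [hδ]; ring
    have h2 : (4 * (δ * K) + 2) * Real.log X ≤ ε * K * Real.log X := by
      apply mul_le_mul_of_nonneg_right _ (by linarith)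
      rw [e3]
      linarith
    linarith
  · have h1 := count_fixed f (Real.log X) (2 * Real.log X) δ (by linarith) (by linarith) hδ0.le K ho hp2
    refine (num_mono fun k _ hk => ?_).trans (h1.trans ?_)
    · refine lt_of_le_of_lt ?_ hk
      have : 3 / 8 * Real.log X + δ * (2 * Real.log X) = (3 / 8 + 2 * δ) * Real.log X := by ring
      rw [this]
      apply mul_le_mul_of_nonneg_right _ (by linarith)
      rw [hδ]
      linarith
    · have e3 : ε * K = 8 * (δ * K) := by rw [hδ]; ring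
      have e4 : (1 / 4 + ε) * K = 1 / 4 * K + 8 * (δ * K) := by rw [← e3]; ring
      rw [e4]
      linarith

end

end Pool.Agent.Helper87.T
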