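import Pool.Agent.Helper87.T.NT

/-!
The pairs of lengths `k`, `k + 2`: almost all lengths, every length, and the means over the fixed lengths.
-/

set_option autoImplicit false

open Finset Filter

namespace Pool.Agent.Helper87.T

open Pool.Agent.X23.CS (LogDensityZero Two)
open Pool.Agent.TH893.CL (Pk SS lr lr_pm num num_mono num_or num_nonneg Plus Minus plus_minus Pk_abs abs_sum_Ioc_le)

section

variable {l : ℕ → ℝ}

lemma shift_k (f : ℕ → ℝ) (Y X k : ℕ) : ∑ n ∈ Ioc Y X, f (n + k) = ∑ m ∈ Ioc (Y + k) (X + k), f m := by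
  rw [← Finset.image_add_right_Ioc, sum_image (fun x _ y _ h => by simpa using h)]

/-- the core inequality with small sums of pairs -/
lemma core_small (hl : ∀ n, l n = 1 ∨ l n = -1) (k Y X : ℕ) (hYX : Y ≤ X) (C D D' : ℝ)
    (h0 : |∑ n ∈ Ioc Y X, l n * l (n + k)| ≤ D) (h1 : |∑ n ∈ Ioc Y X, l n * l (n + k + 1)| ≤ D)
    (h2 : |∑ n ∈ Ioc Y X, l n * l (n + k + 2)| ≤ D)
    (h3 : |∑ n ∈ Ioc Y X, l n * (l (n + k) * l (n + k + 1) * l (n + k + 2))| ≤ C)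
    (h4 : |∑ m ∈ Ioc (Y + k) (X + k), l m * l (m + 1)| ≤ D')
    (h5 : |∑ m ∈ Ioc (Y + k) (X + k), l m * l (m + 2)| ≤ D') :
    |SS l k Y X| + |SS l (k + 2) Y X| ≤ 3 / 4 * ((X : ℝ) - Y) + C / 4 + 3 / 4 * D + 3 / 4 * D' + 5 / 2 := by
  have h := core hl k Y X hYX
  have e4 : ∑ n ∈ Ioc Y X, l (n + k) * l (n + k + 1) = ∑ m ∈ Ioc (Y + k) (X + k), l m * l (m + 1) :=
    shift_k (fun m => l m * l (m + 1)) Y X k
  have e5 : ∑ n ∈ Ioc Y X, l (n + k) * l (n + k + 2) = ∑ m ∈ Ioc (Y + k) (X + k), l m * l (m + 2) :=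
    shift_k (fun m => l m * l (m + 2)) Y X k
  have hb : ∀ n, |l (n + k) * l (n + k + 1)| ≤ 1 := by
    intro n
    rcases hl (n + k) with g | g <;> rcases hl (n + k + 1) with g' | g' <;> rw [g, g'] <;> norm_num
  have h6 := shift_one (fun n => l (n + k) * l (n + k + 1)) hb Y X hYX
  have e6 : ∑ n ∈ Ioc Y X, l (n + 1 + k) * l (n + 1 + k + 1) =
      ∑ n ∈ Ioc Y X, l (n + k + 1) * l (n + k + 2) := by
    refine sum_congr rfl fun n _ => ?_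
    rw [show n + 1 + k = n + k + 1 by ring]
  rw [e6] at h6
  have h7 := abs_sub_abs_le_abs_sub (∑ n ∈ Ioc Y X, l (n + k + 1) * l (n + k + 2))
    (∑ n ∈ Ioc Y X, l (n + k) * l (n + k + 1))
  rw [e4] at h6 h7 h
  rw [e5] at h
  linarith

end

/-- **almost all lengths** -/
theorem partA {E' : Set ℕ} (h2 : Two E') (a B : ℕ) (ha : 1 ≤ a) (ε : ℝ) (hε : 0 < ε) :
    ∃ K₀ N₀ : ℕ, ∀ N K : ℕ, N₀ ≤ N → (2 * a + B) * N ∉ E' → K₀ ≤ K → K ≤ N → ∀ b : ℕ, b ≤ B * N →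
      num (Icc 1 K) (fun k => ¬ ∀ Y X : ℕ, Y ≤ X → X ≤ N →
        |SS (lr a b) k Y X| + |SS (lr a b) (k + 2) Y X| ≤ 3 / 4 * ((X : ℝ) - Y) + ε * N) ≤ ε * K := by
  set η : ℝ := ε / (4 * ((B : ℝ) + 1)) with hη
  have hη0 : 0 < η := by positivity
  obtain ⟨H₀, N₁, hpm⟩ := plus_minus ha hη0
  obtain ⟨N₂, g1⟩ := two_ap h2 a B 1 ha le_rfl (ε / 6) (by positivity)
  obtain ⟨N₃, g2⟩ := two_ap h2 a B 2 ha (by norm_num) (ε / 6) (by positivity)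
  obtain ⟨N₄, hN₄⟩ := exists_nat_ge (5 / ε)
  refine ⟨H₀, max (max N₁ N₂) (max N₃ N₄), fun N K hN hNE hK hKN b hb => ?_⟩
  have k1 : N₁ ≤ N := (le_max_left _ _).trans ((le_max_left _ _).trans hN)
  have k2 : N₂ ≤ N := (le_max_right _ _).trans ((le_max_left _ _).trans hN)
  have k3 : N₃ ≤ N := (le_max_left _ _).trans ((le_max_right _ _).trans hN)
  have k4 : N₄ ≤ N := (le_max_right _ _).trans ((le_max_right _ _).trans hN)
  have hle : N ≤ (B + 1) * N := Nat.le_mul_of_pos_left _ (by omega)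
  have hbN : b ≤ (B + 1) * N := by nlinarith
  obtain ⟨-, hM⟩ := hpm ((B + 1) * N) K (k1.trans hle) hK (hKN.trans hle) b hbN
  set l := lr a b with hl
  have hlpm : ∀ n, l n = 1 ∨ l n = -1 := lr_pm a b
  have hab : ∀ n, |l n| ≤ 1 := by
    intro n
    rcases hlpm n with g | g <;> rw [g] <;> norm_num
  have hbig : 5 ≤ ε * N := by
    have h3 : 5 / ε ≤ N := hN₄.trans (by exact_mod_cast k4)
    rw [div_le_iff₀ hε] at h3
    linarith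
  have m0 := hM l hab
  have m1 := hM (fun m => l (m + 1)) (fun n => hab _)
  have m2 := hM (fun m => l (m + 2)) (fun n => hab _)
  have m3 := hM (fun m => l m * l (m + 1) * l (m + 2)) (fun n => by
    rcases hlpm n with g | g <;> rcases hlpm (n + 1) with g' | g' <;> rcases hlpm (n + 2) with g'' | g'' <;>
      rw [g, g', g''] <;> norm_num)
  have hηN : η * (((B + 1) * N : ℕ) : ℝ) = ε / 4 * N := by
    rw [hη]
    push_cast
    field_simp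
  rw [hηN] at m0 m1 m2 m3
  have hsub : num (Icc 1 K) (fun k => ¬ ∀ Y X : ℕ, Y ≤ X → X ≤ N →
      |SS l k Y X| + |SS l (k + 2) Y X| ≤ 3 / 4 * ((X : ℝ) - Y) + ε * N) ≤
      num (Icc 1 K) (fun k => ((¬ ∀ Y X : ℕ, Y ≤ X → X ≤ 2 * ((B + 1) * N) →
        |∑ n ∈ Ioc Y X, l n * l (n + k)| ≤ ε / 4 * N) ∨
       (¬ ∀ Y X : ℕ, Y ≤ X → X ≤ 2 * ((B + 1) * N) →
        |∑ n ∈ Ioc Y X, l n * l (n + k + 1)| ≤ ε / 4 * N)) ∨
       ((¬ ∀ Y X : ℕ, Y ≤ X → X ≤ 2 * ((B + 1) * N) →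
        |∑ n ∈ Ioc Y X, l n * l (n + k + 2)| ≤ ε / 4 * N) ∨
       (¬ ∀ Y X : ℕ, Y ≤ X → X ≤ 2 * ((B + 1) * N) →
        |∑ n ∈ Ioc Y X, l n * (l (n + k) * l (n + k + 1) * l (n + k + 2))| ≤ ε / 4 * N))) := by
    refine num_mono fun k hk hno => ?_
    by_contra hcon
    push Not at hcon
    obtain ⟨⟨c0, c1⟩, c2, c3⟩ := hcon
    apply hno
    intro Y X hYX hX
    have hkN : k ≤ N := (mem_Icc.1 hk).2.trans hKN
    have hX2 : X ≤ 2 * ((B + 1) * N) := by omega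
    have r := core_small hlpm k Y X hYX (ε / 4 * N) (ε / 4 * N) (ε / 6 * N) (c0 Y X hYX hX2) (c1 Y X hYX hX2)
      (c2 Y X hYX hX2) (c3 Y X hYX hX2) (g1 N k2 hNE b hb (Y + k) (X + k) (by omega) (by omega))
      (g2 N k3 hNE b hb (Y + k) (X + k) (by omega) (by omega))
    have hN0 : (0 : ℝ) ≤ N := Nat.cast_nonneg N
    linarith
  refine hsub.trans ?_
  refine (num_or _ _ _).trans ?_
  have n1 := num_or (Icc 1 K) (fun k => ¬ ∀ Y X : ℕ, Y ≤ X → X ≤ 2 * ((B + 1) * N) →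
        |∑ n ∈ Ioc Y X, l n * l (n + k)| ≤ ε / 4 * N) (fun k => ¬ ∀ Y X : ℕ, Y ≤ X → X ≤ 2 * ((B + 1) * N) →
        |∑ n ∈ Ioc Y X, l n * l (n + k + 1)| ≤ ε / 4 * N)
  have n2 := num_or (Icc 1 K) (fun k => ¬ ∀ Y X : ℕ, Y ≤ X → X ≤ 2 * ((B + 1) * N) →
        |∑ n ∈ Ioc Y X, l n * l (n + k + 2)| ≤ ε / 4 * N) (fun k => ¬ ∀ Y X : ℕ, Y ≤ X → X ≤ 2 * ((B + 1) * N) →
        |∑ n ∈ Ioc Y X, l n * (l (n + k) * l (n + k + 1) * l (n + k + 2))| ≤ ε / 4 * N)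
  have hηε : η ≤ ε / 4 := by
    rw [hη]
    apply div_le_div_of_nonneg_left hε.le (by norm_num)
    have : (0 : ℝ) ≤ B := Nat.cast_nonneg B
    linarith
  have hK0 : (0 : ℝ) ≤ K := Nat.cast_nonneg K
  have := mul_le_mul_of_nonneg_right hηε hK0
  linarith

/-- **every length** -/
theorem partC {E' : Set ℕ} (h2 : Two E') (a B k : ℕ) (ha : 1 ≤ a) (hk : 1 ≤ k) (ε : ℝ) (hε : 0 < ε) :
    ∃ N₀ : ℕ, ∀ N : ℕ, N₀ ≤ N → (2 * a + B) * N ∉ E' → ∀ b : ℕ, b ≤ B * N → ∀ Y X : ℕ, Y ≤ X → X ≤ N →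
      |SS (lr a b) k Y X| + |SS (lr a b) (k + 2) Y X| ≤ 3 / 4 * ((X : ℝ) - Y) +
        |∑ n ∈ Ioc Y X, lr a b n * (lr a b (n + k) * lr a b (n + k + 1) * lr a b (n + k + 2))| / 4 + ε * N := by
  obtain ⟨N₁, g1⟩ := two_ap h2 a B 1 ha le_rfl (ε / 3) (by positivity)
  obtain ⟨N₂, g2⟩ := two_ap h2 a B 2 ha (by norm_num) (ε / 3) (by positivity)
  obtain ⟨N₃, g3⟩ := two_ap h2 a B k ha hk (ε / 3) (by positivity)
  obtain ⟨N₄, g4⟩ := two_ap h2 a B (k + 1) ha (by omega) (ε / 3) (by positivity)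
  obtain ⟨N₅, g5⟩ := two_ap h2 a B (k + 2) ha (by omega) (ε / 3) (by positivity)
  obtain ⟨N₆, hN₆⟩ := exists_nat_ge (5 / ε)
  refine ⟨N₁ + N₂ + N₃ + N₄ + N₅ + N₆ + k, fun N hN hNE b hb Y X hYX hX => ?_⟩
  have hbig : 5 ≤ ε * N := by
    have h3 : 5 / ε ≤ N := hN₆.trans (by exact_mod_cast (by omega : N₆ ≤ N))
    rw [div_le_iff₀ hε] at h3
    linarith
  have c0 := g3 N (by omega) hNE b hb Y X hYX (by omega)
  have c1 := g4 N (by omega) hNE b hb Y X hYX (by omega)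
  have c2 := g5 N (by omega) hNE b hb Y X hYX (by omega)
  have r := core_small (lr_pm a b) k Y X hYX _ (ε / 3 * N) (ε / 3 * N) c0 c1 c2 le_rfl
    (g1 N (by omega) hNE b hb (Y + k) (X + k) (by omega) (by omega))
    (g2 N (by omega) hNE b hb (Y + k) (X + k) (by omega) (by omega))
  linarith

/-- **fixed lengths** -/
theorem partB {E' : Set ℕ} (h2 : Two E') (h3 : OddP E') (a B : ℕ) (ha : 1 ≤ a) (ε : ℝ) (hε : 0 < ε) :
    ∃ K₀ : ℕ, ∀ K : ℕ, K₀ ≤ K → ∃ N₀ : ℕ, ∀ N : ℕ, N₀ ≤ N → (2 * a + B) * N ∉ E' → ∀ b : ℕ, b ≤ B * N →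
      (∀ Y X : ℕ, Y ≤ X → X ≤ N → ∑ k ∈ Icc 1 K, |SS (lr a b) k Y X| ≤ K * (3 / 16 * ((X : ℝ) - Y) + ε * N)) ∧
      (∀ Y X : ℕ, Y ≤ X → X ≤ N →
        num (Icc 1 K) (fun k => 3 / 8 * ((X : ℝ) - Y) + ε * N < |SS (lr a b) k Y X|) ≤ (1 / 4 + ε) * K) ∧
      (∀ (ξ : ℕ → ℂ), (∀ n, ‖ξ n‖ ≤ 1) → ∀ Y X : ℕ, Y ≤ X → X ≤ N →
        ∑ k ∈ Icc 1 K, ‖∑ n ∈ Ioc Y X, ξ n * (Pk (lr a b) k n : ℂ)‖ ^ 2 ≤
          ((X : ℝ) - Y) * (K * (3 / 16 * ((X : ℝ) - Y) + ε * N))) := by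
  set ε' : ℝ := ε / 8 with hε'
  have hε'0 : 0 < ε' := by positivity
  obtain ⟨K₁, N₁, hA⟩ := partA h2 a B ha ε' hε'0
  obtain ⟨K₂, hK₂⟩ := exists_nat_ge (((K₁ : ℝ) + 1) / ε')
  refine ⟨K₁ + K₂ + 1, fun K hK => ?_⟩
  have hodd : ∀ k : ℕ, ∃ N₀ : ℕ, Odd k → ∀ N : ℕ, N₀ ≤ N → (2 * a + B) * N ∉ E' → ∀ b : ℕ, b ≤ B * N →
      ∀ Y X : ℕ, Y ≤ X → X ≤ 2 * N → |SS (lr a b) k Y X| ≤ ε' * N := by
    intro k
    by_cases hk : Odd k
    · obtain ⟨N₀, h⟩ := odd_ap h3 a B k ha hk ε' hε'0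
      exact ⟨N₀, fun _ => h⟩
    · exact ⟨0, fun h => absurd h hk⟩
  choose n₁ hn₁ using hodd
  obtain ⟨N₂, hN₂⟩ := exists_nat_ge (2 * K / ε')
  refine ⟨N₁ + N₂ + K + ∑ k ∈ range (K + 3), n₁ k, fun N hN hNE b hb => ?_⟩
  set l := lr a b with hl
  have hlpm : ∀ n, l n = 1 ∨ l n = -1 := lr_pm a b
  have hN0 : (0 : ℝ) ≤ N := Nat.cast_nonneg N
  have hK0 : (0 : ℝ) ≤ K := Nat.cast_nonneg K
  have hKbig : (K₁ : ℝ) + 1 ≤ ε' * K := by
    have h3 : ((K₁ : ℝ) + 1) / ε' ≤ K := hK₂.trans (by exact_mod_cast (by omega : K₂ ≤ K))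
    rw [div_le_iff₀ hε'0] at h3
    linarith
  have hNbig : 2 * (K : ℝ) ≤ ε' * N := by
    have h3 : 2 * (K : ℝ) / ε' ≤ N := hN₂.trans (by exact_mod_cast (by omega : N₂ ≤ N))
    rw [div_le_iff₀ hε'0] at h3
    linarith
  have ho : ∀ k, k ≤ K + 2 → Odd k → ∀ Y X : ℕ, Y ≤ X → X ≤ N → |SS l k Y X| ≤ ε' * N := by
    intro k hk hk2 Y X hYX hX
    refine hn₁ k hk2 N ?_ hNE b hb Y X hYX (by omega)
    have := single_le_sum (f := n₁) (fun i _ => Nat.zero_le _) (mem_range.2 (by omega : k < K + 3))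
    omega
  have hfM : ∀ k Y X : ℕ, Y ≤ X → X ≤ N → |SS l k Y X| ≤ N := by
    intro k Y X hYX hX
    refine (abs_sum_Ioc_le (fun n => (Pk_abs hlpm k n).le) hYX).trans ?_
    have e1 : (X : ℝ) ≤ N := by exact_mod_cast hX
    have e2 : (0 : ℝ) ≤ Y := Nat.cast_nonneg Y
    linarith
  have hpair : ∀ m, K₁ ≤ m → m ≤ K → ∀ Y X : ℕ, Y ≤ X → X ≤ N →
      num (Icc 1 m) (fun k => ¬ |SS l k Y X| + |SS l (k + 2) Y X| ≤ 3 / 4 * ((X : ℝ) - Y) + ε' * N) ≤ ε' * m := by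
    intro m hm hmK Y X hYX hX
    refine (num_mono fun k _ hk hcon => hk (hcon Y X hYX hX)).trans
      (hA N m (by omega) hNE hm (by omega) b hb)
  have hmean : ∀ Y X : ℕ, Y ≤ X → X ≤ N → ∀ m, m ≤ K → ∑ j ∈ Icc 1 m, |SS l j Y X| ≤
      m * (3 / 16 * ((X : ℝ) - Y) + 2 * ε' * N) + ((K₁ : ℝ) + 1) * N := by
    intro Y X hYX hX m hm
    have hI : (0 : ℝ) ≤ (X : ℝ) - Y := by
      rw [sub_nonneg]
      exact_mod_cast hYX
    rcases Nat.lt_or_ge m K₁ with h | h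
    · have h1 : ∑ j ∈ Icc 1 m, |SS l j Y X| ≤ ∑ _j ∈ Icc 1 m, (N : ℝ) :=
        sum_le_sum fun j _ => hfM j Y X hYX hX
      rw [sum_const, Nat.card_Icc, nsmul_eq_mul, Nat.add_sub_cancel] at h1
      have h4 : (m : ℝ) ≤ K₁ := by exact_mod_cast h.le
      have h5 : (m : ℝ) * N ≤ K₁ * N := mul_le_mul_of_nonneg_right h4 hN0
      have h6 : 0 ≤ (m : ℝ) * (3 / 16 * ((X : ℝ) - Y) + 2 * ε' * N) := by positivity
      linarith
    · have h1 := mean_fixed (fun k => |SS l k Y X|) (fun k => abs_nonneg _) ((X : ℝ) - Y) N ε' hI hε'0.le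
        (fun k => hfM k Y X hYX hX) m (fun k hk hk2 => ho k (by omega) hk2 Y X hYX hX) (hpair m h hm Y X hYX hX)
      have h6 : 0 ≤ (K₁ : ℝ) * N := by positivity
      linarith
  have hεεN : ε' * N = ε * N / 8 := by rw [hε']; ring
  refine ⟨?_, ?_, ?_⟩
  · intro Y X hYX hX
    have h1 := hmean Y X hYX hX K le_rfl
    have h4 : ((K₁ : ℝ) + 1) * N ≤ ε' * K * N := mul_le_mul_of_nonneg_right hKbig hN0
    have h5 : K * (3 / 16 * ((X : ℝ) - Y) + 2 * ε' * N) + ε' * K * N =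
        K * (3 / 16 * ((X : ℝ) - Y) + 3 * (ε' * N)) := by ring
    have h6 : (K : ℝ) * (3 / 16 * ((X : ℝ) - Y) + 3 * (ε' * N)) ≤ K * (3 / 16 * ((X : ℝ) - Y) + ε * N) := by
      apply mul_le_mul_of_nonneg_left _ hK0
      have : 0 ≤ ε * N := by positivity
      linarith
    linarith
  · intro Y X hYX hX
    have hI : (0 : ℝ) ≤ (X : ℝ) - Y := by
      rw [sub_nonneg]
      exact_mod_cast hYX
    have h1 := count_fixed (fun k => |SS l k Y X|) ((X : ℝ) - Y) N ε' hI hN0 hε'0.le K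
      (fun k hk hk2 => ho k (by omega) hk2 Y X hYX hX) (hpair K (by omega) le_rfl Y X hYX hX)
    refine (num_mono fun k _ hk => ?_).trans (h1.trans ?_)
    · have : ε' * N ≤ ε * N := by
        have : 0 ≤ ε * N := by positivity
        linarith
      linarith
    · have h4 : (1 : ℝ) ≤ ε' * K := by
        have : (0 : ℝ) ≤ K₁ := Nat.cast_nonneg K₁
        linarith
      have h5 : ε' * K = ε * K / 8 := by rw [hε']; ring
      have : 0 ≤ ε * K := by positivity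
      linarith
  · intro ξ hξ Y X hYX hX
    have hI : (0 : ℝ) ≤ (X : ℝ) - Y := by
      rw [sub_nonneg]
      exact_mod_cast hYX
    have hXN : (X : ℝ) - Y ≤ N := by
      have e1 : (X : ℝ) ≤ N := by exact_mod_cast hX
      have e2 : (0 : ℝ) ≤ Y := Nat.cast_nonneg Y
      linarith
    have h1 := bessel hlpm ξ hξ Y X K hYX (3 / 16 * ((X : ℝ) - Y) + 2 * ε' * N) (((K₁ : ℝ) + 1) * N)
      (by positivity) (by positivity) (hmean Y X hYX hX)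
    refine h1.trans (mul_le_mul_of_nonneg_left ?_ hI)
    have h4 : ((K₁ : ℝ) + 1) * N ≤ ε' * K * N := mul_le_mul_of_nonneg_right hKbig hN0
    have h5 : (1 : ℝ) ≤ ε' * K := by
      have : (0 : ℝ) ≤ K₁ := Nat.cast_nonneg K₁
      linarith
    have h6 : (1 : ℝ) * N ≤ ε' * K * N := mul_le_mul_of_nonneg_right h5 hN0
    have h7 : 2 * (K : ℝ) * K ≤ ε' * N * K := mul_le_mul_of_nonneg_right hNbig hK0
    have h8 : ε' * K * N = ε * (K * N) / 8 := by rw [hε']; ring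
    have h9 : (K : ℝ) * (3 / 16 * ((X : ℝ) - Y) + ε * N) =
        K * (3 / 16 * ((X : ℝ) - Y)) + ε * (K * N) := by ring
    have h10 : (K : ℝ) * (3 / 16 * ((X : ℝ) - Y) + 2 * ε' * N) =
        K * (3 / 16 * ((X : ℝ) - Y)) + 2 * (ε' * K * N) := by ring
    have h11 : ε' * N * K = ε' * K * N := by ring
    have h12 : 0 ≤ ε * (K * N) := by positivity
    rw [h9, h10]
    linarith

end Pool.Agent.Helper87.T
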