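import Pool.Agent.Helper87.T.Det
import Pool.Agent.Helper87.T.Bes
import Pool.Agent.Helper87.Q.Fin

/-!
The inputs on the Liouville function: single values, pairs, and products of an odd number of consecutive values.
-/

set_option autoImplicit false

open Finset Filter

namespace Pool.Agent.Helper87.T

open Pool.Agent.X23.CS (e e_zero LogDensityZero Two exceptional pull ap_bound)
open Pool.Agent.Y842.EL (LZ_union LZ_mono LZ_diag')
open Pool.Agent.TH893.CL (Pk SS lr lr_pm num num_mono num_or num_nonneg Plus Minus plus_minus Pk_abs)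
open Pool.Agent.Helper87.Q (lam)

/-- products of an odd number of consecutive values along the progressions -/
def OddP (E : Set ℕ) : Prop := ∀ a k : ℕ, 1 ≤ a → Odd k → ∀ ε : ℝ, 0 < ε → ∃ N₀ : ℕ, ∀ N : ℕ, N₀ ≤ N → N ∉ E →
  ∀ (α : ℝ) (y : ℕ), y ≤ N →
    ‖∑ n ∈ Icc 1 y, ((∏ j ∈ range k, lam (n + a * j) : ℝ) : ℂ) * e (α * n)‖ ≤ ε * N

lemma card_H (a k : ℕ) (ha : 1 ≤ a) : ((range k).image (fun j => a * j)).card = k := by
  rw [card_image_of_injective, card_range]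
  intro x y hxy
  exact Nat.eq_of_mul_eq_mul_left ha hxy

lemma prodLam_H (a k n : ℕ) (ha : 1 ≤ a) :
    ((Pool.Agent.V1213.CH.prodLam ((range k).image (fun j => a * j)) n : ℤ) : ℂ) =
      ((∏ j ∈ range k, lam (n + a * j) : ℝ) : ℂ) := by
  unfold Pool.Agent.V1213.CH.prodLam
  rw [prod_image (fun x _ y _ hxy => Nat.eq_of_mul_eq_mul_left ha hxy)]
  push_cast
  refine prod_congr rfl fun j _ => ?_
  unfold Pool.Agent.V1213.CH.lam lam Pool.Agent.X23.CS.lam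
  push_cast
  rfl

theorem odd_exc : ∃ E : Set ℕ, LogDensityZero E ∧ OddP E := by
  obtain ⟨F, hF, h⟩ := LZ_diag' (fun t : ℕ × ℕ × ℕ => {N : ℕ | ∃ α : ℝ, ∃ y ≤ N,
      (1 / ((t.2.2 : ℝ) + 1)) * N <
        ‖Pool.Agent.V1213.CH.Sm ((range (2 * t.2.1 + 1)).image (fun j => (t.1 + 1) * j)) y α‖}) (by
    intro t
    have hodd : Odd ((range (2 * t.2.1 + 1)).image (fun j => (t.1 + 1) * j)).card := by
      rw [card_H _ _ (by omega)]
      exact ⟨t.2.1, rfl⟩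
    exact (Pool.Agent.V1213.CH.equivalence _).1
      (fun q a hq ε hε => Pool.Agent.Helper87.Q.odd_prog _ hodd q a hq ε hε) (1 / ((t.2.2 : ℝ) + 1))
      (by positivity))
  refine ⟨F, hF, fun a k ha hk ε hε => ?_⟩
  obtain ⟨r, hr⟩ := hk
  obtain ⟨m, hm⟩ := exists_nat_one_div_lt hε
  obtain ⟨N₀, hN₀⟩ := h (a - 1, r, m)
  refine ⟨N₀, fun N hN hNE α y hy => ?_⟩
  by_contra hcon
  rw [not_le] at hcon
  apply hNE
  refine hN₀ N hN ⟨α, y, hy, ?_⟩
  have ha1 : a - 1 + 1 = a := by omega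
  simp only [ha1]
  rw [← hr]
  have h1 : Pool.Agent.V1213.CH.Sm ((range k).image (fun j => a * j)) y α =
      ∑ n ∈ Icc 1 y, ((∏ j ∈ range k, lam (n + a * j) : ℝ) : ℂ) * e (α * n) := by
    unfold Pool.Agent.V1213.CH.Sm
    refine sum_congr rfl fun n _ => ?_
    rw [prodLam_H a k n ha]
    rfl
  rw [h1]
  refine lt_of_le_of_lt ?_ hcon
  exact mul_le_mul_of_nonneg_right hm.le (Nat.cast_nonneg N)

/-- from exponential sums to real sums along a progression -/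
lemma real_ap (g : ℕ → ℝ) (M : ℕ) (D : ℝ)
    (h : ∀ (α : ℝ) (y : ℕ), y ≤ M → ‖∑ n ∈ Icc 1 y, ((g n : ℝ) : ℂ) * e (α * n)‖ ≤ D)
    (a b Y X : ℕ) (ha : 1 ≤ a) (hYX : Y ≤ X) (hX : a * X + b ≤ M) :
    |∑ n ∈ Ioc Y X, g (a * n + b)| ≤ 2 * D := by
  have h1 := ap_bound (fun m => ((g m : ℝ) : ℂ)) M D h a b Y X ha hYX hX 0
  have h2 : ∑ n ∈ Ioc Y X, ((g (a * n + b) : ℝ) : ℂ) * e (0 * n) =
      ((∑ n ∈ Ioc Y X, g (a * n + b) : ℝ) : ℂ) := by
    push_cast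
    refine sum_congr rfl fun n _ => ?_
    rw [zero_mul, e_zero, mul_one]
  rw [h2, Complex.norm_real, Real.norm_eq_abs] at h1
  exact h1

/-- pairs of values along progressions -/
theorem two_ap {E : Set ℕ} (h2 : Two E) (a B j : ℕ) (ha : 1 ≤ a) (hj : 1 ≤ j) (δ : ℝ) (hδ : 0 < δ) :
    ∃ N₀ : ℕ, ∀ N : ℕ, N₀ ≤ N → (2 * a + B) * N ∉ E → ∀ b : ℕ, b ≤ B * N → ∀ Y X : ℕ, Y ≤ X → X ≤ 2 * N →
      |∑ n ∈ Ioc Y X, lr a b n * lr a b (n + j)| ≤ δ * N := by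
  have ha0 : (1 : ℝ) ≤ a := by exact_mod_cast ha
  have hpos : (0 : ℝ) < 2 * a + B := by positivity
  obtain ⟨N₀, h⟩ := h2 (a * j) (Nat.mul_pos ha hj) (δ / (2 * (2 * a + B))) (by positivity)
  refine ⟨N₀, fun N hN hNE b hb Y X hYX hX => ?_⟩
  have hle : N ≤ (2 * a + B) * N := Nat.le_mul_of_pos_left _ (by omega)
  have h3 := real_ap (fun m => lam m * lam (m + a * j)) ((2 * a + B) * N) _
    (fun α y hy => h _ (hN.trans hle) hNE α y hy) a b Y X ha hYX (by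
      have : a * X ≤ a * (2 * N) := Nat.mul_le_mul_left _ hX
      nlinarith)
  have h4 : ∑ n ∈ Ioc Y X, lr a b n * lr a b (n + j) =
      ∑ n ∈ Ioc Y X, lam (a * n + b) * lam (a * n + b + a * j) := by
    refine sum_congr rfl fun n _ => ?_
    unfold lr lam Pool.Agent.X23.CS.lam
    have : a * (n + j) + b = a * n + b + a * j := by ring
    rw [this]
  rw [h4]
  refine h3.trans (le_of_eq ?_)
  push_cast
  field_simp

/-- products of an odd number of consecutive values along progressions -/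
theorem odd_ap {E : Set ℕ} (h : OddP E) (a B k : ℕ) (ha : 1 ≤ a) (hk : Odd k) (δ : ℝ) (hδ : 0 < δ) :
    ∃ N₀ : ℕ, ∀ N : ℕ, N₀ ≤ N → (2 * a + B) * N ∉ E → ∀ b : ℕ, b ≤ B * N → ∀ Y X : ℕ, Y ≤ X → X ≤ 2 * N →
      |SS (lr a b) k Y X| ≤ δ * N := by
  have ha0 : (1 : ℝ) ≤ a := by exact_mod_cast ha
  have hpos : (0 : ℝ) < 2 * a + B := by positivity
  obtain ⟨N₀, h⟩ := h a k ha hk (δ / (2 * (2 * a + B))) (by positivity)
  refine ⟨N₀, fun N hN hNE b hb Y X hYX hX => ?_⟩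
  have hle : N ≤ (2 * a + B) * N := Nat.le_mul_of_pos_left _ (by omega)
  have h3 := real_ap (fun m => ∏ j ∈ range k, lam (m + a * j)) ((2 * a + B) * N) _
    (fun α y hy => h _ (hN.trans hle) hNE α y hy) a b Y X ha hYX (by
      have : a * X ≤ a * (2 * N) := Nat.mul_le_mul_left _ hX
      nlinarith)
  have h4 : SS (lr a b) k Y X = ∑ n ∈ Ioc Y X, ∏ j ∈ range k, lam (a * n + b + a * j) := by
    unfold SS Pk
    refine sum_congr rfl fun n _ => prod_congr rfl fun j _ => ?_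
    unfold lr lam Pool.Agent.X23.CS.lam
    have : a * (n + j) + b = a * n + b + a * j := by ring
    rw [this]
  rw [h4]
  refine h3.trans (le_of_eq ?_)
  push_cast
  field_simp

/-- the exceptional set -/
theorem exc : ∃ E : Set ℕ, LogDensityZero E ∧ ∃ E' : Set ℕ, Two E' ∧ OddP E' ∧
    ∀ a B : ℕ, 1 ≤ a → ∃ N₀ : ℕ, ∀ N : ℕ, N₀ ≤ N → N ∉ E → (2 * a + B) * N ∉ E' := by
  obtain ⟨E₁, hE₁, -, h2⟩ := exceptional
  obtain ⟨E₂, hE₂, h3⟩ := odd_exc
  have hU := LZ_union hE₁ hE₂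
  obtain ⟨F, hF, hdiag⟩ := LZ_diag'
    (fun t : ℕ × ℕ => {N | (2 * (t.1 + 1) + t.2) * N + 0 ∈ E₁ ∪ E₂})
    (fun t => pull hU _ _ (by omega))
  refine ⟨F, hF, E₁ ∪ E₂, ?_, ?_, ?_⟩
  · intro d hd ε hε
    obtain ⟨N₀, h⟩ := h2 d hd ε hε
    exact ⟨N₀, fun N hN hNE => h N hN fun hc => hNE (Set.mem_union_left _ hc)⟩
  · intro a k ha hk ε hε
    obtain ⟨N₀, h⟩ := h3 a k ha hk ε hε
    exact ⟨N₀, fun N hN hNE => h N hN fun hc => hNE (Set.mem_union_right _ hc)⟩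
  · intro a B ha
    obtain ⟨N₀, h⟩ := hdiag (a - 1, B)
    refine ⟨N₀, fun N hN hNF hcon => hNF (h N hN ?_)⟩
    have : a - 1 + 1 = a := by omega
    simp only [this]
    exact hcon

end Pool.Agent.Helper87.T
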